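import Pool.Agent.H17.Cone.Stmts

/-!
# Cones over convex disks: module MAX (a triangle of maximal area)
-/

set_option autoImplicit false

namespace Pool.Agent.H17.Cone.MAX

open Pool.Agent.H17.Cone

/-- Twice the oriented area of a triangle. -/
noncomputable def D (z : Fin 3 → E2) : ℝ :=
  (z 1 0 - z 0 0) * (z 2 1 - z 0 1) - (z 1 1 - z 0 1) * (z 2 0 - z 0 0)

lemma D_cont : Continuous D := by
  unfold D
  fun_prop

/-- A linear function of the plane. -/
noncomputable def lin (α β : ℝ) : E2 →ₗ[ℝ] ℝ where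
  toFun z := α * z 0 + β * z 1
  map_add' x y := by
    simp only [PiLp.add_apply]
    ring
  map_smul' c x := by
    simp only [PiLp.smul_apply, smul_eq_mul, RingHom.id_apply]
    ring

/-- An affine function of the plane, in coordinates. -/
noncomputable def aff (α β γ : ℝ) : E2 →ᵃ[ℝ] ℝ :=
  (lin α β).toAffineMap + AffineMap.const ℝ E2 γ

lemma aff_apply (α β γ : ℝ) (z : E2) : aff α β γ z = α * z 0 + β * z 1 + γ := rfl

/-- The matrix with the homogeneous coordinates of three points. -/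
noncomputable def Mt (z : Fin 3 → E2) : Matrix (Fin 3) (Fin 3) ℝ :=
  !![z 0 0, z 0 1, 1; z 1 0, z 1 1, 1; z 2 0, z 2 1, 1]

lemma Mt_det (z : Fin 3 → E2) : (Mt z).det = D z := by
  rw [Matrix.det_fin_three]
  simp [Mt, D]
  ring

/-- The barycentric coordinates. -/
noncomputable def bc (a : Fin 3 → E2) : Fin 3 → (E2 →ᵃ[ℝ] ℝ) :=
  ![aff ((a 1 1 - a 2 1) / D a) ((a 2 0 - a 1 0) / D a)
      ((a 1 0 * a 2 1 - a 1 1 * a 2 0) / D a),
    aff ((a 2 1 - a 0 1) / D a) ((a 0 0 - a 2 0) / D a)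
      ((a 2 0 * a 0 1 - a 2 1 * a 0 0) / D a),
    aff ((a 0 1 - a 1 1) / D a) ((a 1 0 - a 0 0) / D a)
      ((a 0 0 * a 1 1 - a 0 1 * a 1 0) / D a)]

lemma bc0 (a : Fin 3 → E2) (z : E2) : bc a 0 z = (a 1 1 - a 2 1) / D a * z 0 +
    (a 2 0 - a 1 0) / D a * z 1 + (a 1 0 * a 2 1 - a 1 1 * a 2 0) / D a := by
  simp only [bc, Matrix.cons_val_zero, aff_apply]

lemma bc1 (a : Fin 3 → E2) (z : E2) : bc a 1 z = (a 2 1 - a 0 1) / D a * z 0 +
    (a 0 0 - a 2 0) / D a * z 1 + (a 2 0 * a 0 1 - a 2 1 * a 0 0) / D a := by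
  simp only [bc, Matrix.cons_val_one, Matrix.cons_val_zero, aff_apply]

lemma bc2 (a : Fin 3 → E2) (z : E2) : bc a 2 z = (a 0 1 - a 1 1) / D a * z 0 +
    (a 1 0 - a 0 0) / D a * z 1 + (a 0 0 * a 1 1 - a 0 1 * a 1 0) / D a := by
  simp only [bc, Matrix.cons_val, aff_apply]

lemma bc_delta {a : Fin 3 → E2} (h : D a ≠ 0) (i j : Fin 3) :
    bc a i (a j) = if i = j then 1 else 0 := by
  fin_cases i <;> fin_cases j <;>
    simp only [Fin.zero_eta, Fin.mk_one, Fin.reduceFinMk, bc0, bc1, bc2] <;>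
    simp <;> field_simp <;> simp only [D] <;> ring

lemma bc_sum {a : Fin 3 → E2} (h : D a ≠ 0) (z : E2) : bc a 0 z + bc a 1 z + bc a 2 z = 1 := by
  rw [bc0, bc1, bc2]
  field_simp
  simp only [D]
  ring

lemma bc_repr {a : Fin 3 → E2} (h : D a ≠ 0) (z : E2) :
    bc a 0 z • a 0 + bc a 1 z • a 1 + bc a 2 z • a 2 = z := by
  ext l
  fin_cases l
  · simp only [Fin.zero_eta, PiLp.add_apply, PiLp.smul_apply, smul_eq_mul, bc0, bc1, bc2]
    field_simp
    simp only [D]
    ring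
  · simp only [Fin.mk_one, PiLp.add_apply, PiLp.smul_apply, smul_eq_mul, bc0, bc1, bc2]
    field_simp
    simp only [D]
    ring

lemma Mt_eq {a : Fin 3 → E2} (h : D a ≠ 0) (z : Fin 3 → E2) :
    (Matrix.of fun i j => bc a j (z i)) * Mt a = Mt z := by
  ext i l
  rw [Matrix.mul_apply, Fin.sum_univ_three]
  simp only [Matrix.of_apply]
  have e0 := bc_repr h (z i)
  have e1 := bc_sum h (z i)
  have f0 : bc a 0 (z i) * a 0 0 + bc a 1 (z i) * a 1 0 + bc a 2 (z i) * a 2 0 = z i 0 := by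
    have := congrArg (fun v : E2 => v 0) e0
    simpa using this
  have f1 : bc a 0 (z i) * a 0 1 + bc a 1 (z i) * a 1 1 + bc a 2 (z i) * a 2 1 = z i 1 := by
    have := congrArg (fun v : E2 => v 1) e0
    simpa using this
  fin_cases l
  · have g : ∀ k : Fin 3, Mt z k 0 = z k 0 := by
      intro k
      fin_cases k <;> simp [Mt]
    have g' : ∀ k : Fin 3, Mt a k 0 = a k 0 := by
      intro k
      fin_cases k <;> simp [Mt]
    simp only [Fin.zero_eta]
    rw [g, g', g', g']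
    exact f0
  · have g : ∀ k : Fin 3, Mt z k 1 = z k 1 := by
      intro k
      fin_cases k <;> simp [Mt]
    have g' : ∀ k : Fin 3, Mt a k 1 = a k 1 := by
      intro k
      fin_cases k <;> simp [Mt]
    simp only [Fin.mk_one]
    rw [g, g', g', g']
    exact f1
  · have g : ∀ k : Fin 3, Mt z k 2 = 1 := by
      intro k
      fin_cases k <;> simp [Mt]
    have g' : ∀ k : Fin 3, Mt a k 2 = 1 := by
      intro k
      fin_cases k <;> simp [Mt]
    simp only [Fin.reduceFinMk]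
    rw [g, g', g', g']
    linarith

lemma exists_pos {K : Set E2} (hK : (interior K).Nonempty) :
    ∃ z : Fin 3 → E2, (∀ i, z i ∈ K) ∧ D z ≠ 0 := by
  obtain ⟨c, hc⟩ := hK
  rw [mem_interior_iff_mem_nhds, Metric.mem_nhds_iff] at hc
  obtain ⟨r, hr, hball⟩ := hc
  refine ⟨![c, c + EuclideanSpace.single 0 (r / 2), c + EuclideanSpace.single 1 (r / 2)], ?_, ?_⟩
  · intro i
    apply hball
    rw [Metric.mem_ball]
    fin_cases i
    · simpa using hr
    · simp only [Fin.mk_one, Matrix.cons_val_one, Matrix.cons_val_zero, dist_self_add_left,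
        PiLp.norm_single, Real.norm_eq_abs]
      rw [abs_of_pos (by linarith)]
      linarith
    · simp only [Fin.reduceFinMk, Matrix.cons_val, dist_self_add_left,
        PiLp.norm_single, Real.norm_eq_abs]
      rw [abs_of_pos (by linarith)]
      linarith
  · have : D ![c, c + EuclideanSpace.single 0 (r / 2), c + EuclideanSpace.single 1 (r / 2)] =
        r / 2 * (r / 2) := by
      simp [D]
    rw [this]
    positivity

end Pool.Agent.H17.Cone.MAX

namespace Pool.Agent.H17.Cone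

/-- MAX: a triangle of maximal area inscribed in a convex disk. -/
theorem max_thm : MAXStmt := by
  intro K hK
  obtain ⟨z₀, hz₀, hD₀⟩ := MAX.exists_pos hK.interior_nonempty
  have hcpt : IsCompact (Set.pi Set.univ (fun _ : Fin 3 => K)) :=
    isCompact_univ_pi fun _ => hK.compact
  obtain ⟨a, ha, hmax⟩ := hcpt.exists_isMaxOn ⟨z₀, fun i _ => hz₀ i⟩
    (MAX.D_cont.abs.continuousOn (s := Set.pi Set.univ (fun _ : Fin 3 => K)))
  have hmax' : ∀ z : Fin 3 → E2, (∀ i, z i ∈ K) → |MAX.D z| ≤ |MAX.D a| := fun z hz =>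
    hmax (fun i _ => hz i : z ∈ Set.pi Set.univ (fun _ : Fin 3 => K))
  have hpos : 0 < |MAX.D a| := lt_of_lt_of_le (abs_pos.mpr hD₀) (hmax' z₀ hz₀)
  have hD : MAX.D a ≠ 0 := abs_pos.mp hpos
  refine ⟨a, MAX.bc a, fun i => ha i (Set.mem_univ i), MAX.bc_delta hD, MAX.bc_sum hD,
    MAX.bc_repr hD, ?_⟩
  intro z hz
  have h1 : (Matrix.of fun i j => MAX.bc a j (z i)).det * MAX.D a = MAX.D z := by
    rw [← MAX.Mt_det a, ← Matrix.det_mul, MAX.Mt_eq hD, MAX.Mt_det]
  have h2 := hmax' z hz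
  rw [← h1, abs_mul] at h2
  exact le_of_mul_le_mul_right (by linarith) hpos

end Pool.Agent.H17.Cone
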