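import Pool.Agent.H17.Cone.Stmts

/-!
# Cones over convex disks: module PCK (the lattice is admissible)
-/

set_option autoImplicit false

namespace Pool.Agent.H17.Cone.PCK

open Pool.Agent.H17.Cone

lemma one {m mj mk bi ti tj tk pji pki : ℝ} (hm : 1 ≤ m) (hj : mj ≤ 0) (hk : mk ≤ 0)
    (hb : 0 ≤ bi) (h1 : tj ≤ pji) (h2 : tk ≤ pki) :
    1 + bi ≤ m * (1 + bi - ti) + mj * (-pji) + mk * (-pki) + (m * ti + mj * tj + mk * tk) := by
  nlinarith [mul_nonneg (sub_nonneg.mpr hm) (by linarith : (0 : ℝ) ≤ 1 + bi),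
    mul_nonneg (neg_nonneg.mpr hj) (sub_nonneg.mpr h1),
    mul_nonneg (neg_nonneg.mpr hk) (sub_nonneg.mpr h2)]

lemma two {mi mj mk bk ti tj tk pik pjk : ℝ} (hi : 1 ≤ mi) (hj : 1 ≤ mj) (hk : mk ≤ 0)
    (hb : 0 ≤ bk) (hti : 0 < ti) (htj : 0 < tj) (hs : ti + tj + tk = 1)
    (hc : 1 + tk * bk ≤ pik + pjk) (h1 : ti ≤ pik) (h2 : tj ≤ pjk) :
    1 + bk ≤ -(mi * (-pik) + mj * (-pjk) + mk * (1 + bk - tk)) +
      bk * (mi * ti + mj * tj + mk * tk) := by
  have e1 : 0 ≤ (mi - 1) * (pik + bk * ti) :=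
    mul_nonneg (sub_nonneg.mpr hi) (by nlinarith [mul_nonneg hb hti.le])
  have e2 : 0 ≤ (mj - 1) * (pjk + bk * tj) :=
    mul_nonneg (sub_nonneg.mpr hj) (by nlinarith [mul_nonneg hb htj.le])
  have e3 : 0 ≤ (-mk) * ((1 + bk) * (1 - tk)) :=
    mul_nonneg (neg_nonneg.mpr hk) (mul_nonneg (by linarith) (by linarith))
  have e4 : tk = 1 - ti - tj := by linarith
  subst e4
  nlinarith

lemma pos {b t : Fin 3 → ℝ} {p : Fin 3 → Fin 3 → ℝ} (hb : ∀ i, 0 ≤ b i) (h : Par b t p)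
    (m : Fin 3 → ℤ) (hm : ∃ i, 1 ≤ m i) :
    Sep b (fun j => ∑ i, (m i : ℝ) * Ymat b t p i j) := by
  have hc : ∀ i, (1 : ℝ) ≤ m i ∨ (m i : ℝ) ≤ 0 := by
    intro i
    rcases le_or_gt 1 (m i) with h1 | h1
    · left
      exact_mod_cast h1
    · right
      have : m i ≤ 0 := by omega
      exact_mod_cast this
  have hm' : ∃ i, (1 : ℝ) ≤ m i := by
    obtain ⟨i, hi⟩ := hm
    exact ⟨i, by exact_mod_cast hi⟩
  have y0 : ∑ i, (m i : ℝ) * Ymat b t p i 0 =
      m 0 * (1 + b 0 - t 0) + m 1 * (-p 1 0) + m 2 * (-p 2 0) := by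
    simp [Ymat, Fin.sum_univ_three]
  have y1 : ∑ i, (m i : ℝ) * Ymat b t p i 1 =
      m 0 * (-p 0 1) + m 1 * (1 + b 1 - t 1) + m 2 * (-p 2 1) := by
    simp [Ymat, Fin.sum_univ_three]
  have y2 : ∑ i, (m i : ℝ) * Ymat b t p i 2 =
      m 0 * (-p 0 2) + m 1 * (-p 1 2) + m 2 * (1 + b 2 - t 2) := by
    simp [Ymat, Fin.sum_univ_three]
  have hs : ∑ i, (m i : ℝ) * Ymat b t p i 0 + ∑ i, (m i : ℝ) * Ymat b t p i 1 +
      ∑ i, (m i : ℝ) * Ymat b t p i 2 = -(m 0 * t 0 + m 1 * t 1 + m 2 * t 2) := by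
    rw [y0, y1, y2]
    have r0 := h.row0
    have r1 := h.row1
    have r2 := h.row2
    linear_combination (-(m 0 : ℝ)) * r0 - (m 1 : ℝ) * r1 - (m 2 : ℝ) * r2
  have t0 := h.tpos 0
  have t1 := h.tpos 1
  have t2 := h.tpos 2
  have ts := h.tsum
  have b0 := hb 0
  have b1 := hb 1
  have b2 := hb 2
  have o01 := h.off 0 1 (by decide)
  have o02 := h.off 0 2 (by decide)
  have o10 := h.off 1 0 (by decide)
  have o12 := h.off 1 2 (by decide)
  have o20 := h.off 2 0 (by decide)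
  have o21 := h.off 2 1 (by decide)
  unfold Sep
  simp only [hs]
  rcases hc 0 with h0 | h0 <;> rcases hc 1 with h1 | h1 <;> rcases hc 2 with h2 | h2
  · -- all
    left
    nlinarith [mul_nonneg (sub_nonneg.mpr h0) t0.le, mul_nonneg (sub_nonneg.mpr h1) t1.le,
      mul_nonneg (sub_nonneg.mpr h2) t2.le]
  · -- 0, 1 positive
    right; right
    refine ⟨2, ?_⟩
    rw [y2]
    have := two h0 h1 h2 b2 t0 t1 ts h.col2 o02 o12
    linarith
  · -- 0, 2 positive
    right; right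
    refine ⟨1, ?_⟩
    rw [y1]
    have := two h0 h2 h1 b1 t0 t2 (by linarith) h.col1 o01 o21
    linarith
  · -- 0 positive
    right; left
    refine ⟨0, ?_⟩
    rw [y0]
    have := one (ti := t 0) h0 h1 h2 b0 o10 o20
    linarith
  · -- 1, 2 positive
    right; right
    refine ⟨0, ?_⟩
    rw [y0]
    have := two h1 h2 h0 b0 t1 t2 (by linarith) h.col0 o10 o20
    linarith
  · -- 1 positive
    right; left
    refine ⟨1, ?_⟩
    rw [y1]
    have := one (ti := t 1) h1 h0 h2 b1 o01 o21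
    linarith
  · -- 2 positive
    right; left
    refine ⟨2, ?_⟩
    rw [y2]
    have := one (ti := t 2) h2 h0 h1 b2 o02 o12
    linarith
  · exfalso
    obtain ⟨i, hi⟩ := hm'
    fin_cases i
    · exact absurd (le_trans hi h0) (by norm_num)
    · exact absurd (le_trans hi h1) (by norm_num)
    · exact absurd (le_trans hi h2) (by norm_num)

end Pool.Agent.H17.Cone.PCK

namespace Pool.Agent.H17.Cone

/-- PCK: the lattice is admissible. -/
theorem pck_thm : PCKStmt := by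
  intro b t p hb h n hn
  by_cases hc : ∃ i, 1 ≤ n i
  · left
    exact PCK.pos hb h n hc
  · right
    push Not at hc
    have h1 : ∃ i, 1 ≤ (-n) i := by
      by_contra hcon
      push Not at hcon
      apply hn
      funext i
      have e1 := hc i
      have e2 := hcon i
      simp only [Pi.neg_apply] at e2
      show n i = 0
      omega
    have h2 := PCK.pos hb h (-n) h1
    have h3 : (fun j => ∑ i, (((-n) i : ℤ) : ℝ) * Ymat b t p i j) =
        fun j => -∑ i, (n i : ℝ) * Ymat b t p i j := by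
      funext j
      rw [← Finset.sum_neg_distrib]
      refine Finset.sum_congr rfl fun i _ => ?_
      simp only [Pi.neg_apply, Int.cast_neg, neg_mul]
    rw [h3] at h2
    exact h2

end Pool.Agent.H17.Cone
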